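import Pool.Agent.Q10.PK.Row3

/-!
# Packing progressions with prime differences up to `√ n`

The least `m` such that the sets `A_p` of the multiples of `p` up to `n`, `p ≤ √ n` prime, pack into
`{1, …, m}` is asymptotically `(4 / 3) n ^ (3 / 2) / log n`.
-/

set_option autoImplicit false

namespace Pool.Agent.Results.MP_fdcff6_co.PrimesUpToSqrt

open Filter Topology
open Pool.Agent.Q10.PK (PackInto prog mP)

/-- Let `mP n` be the least `m` such that the sets `A_p = {p, 2p, …, ⌊n / p⌋ p}`, `p ≤ √ n` prime,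
pack into `{1, …, m}`. Then `mP n * log n / n ^ (3 / 2)` tends to `4 / 3`. -/
theorem result :
    Tendsto (fun n : ℕ => (mP n : ℝ) * Real.log n / (n : ℝ) ^ (3 / 2 : ℝ)) atTop (𝓝 (4 / 3)) :=
  Pool.Agent.Q10.PK.row3

end Pool.Agent.Results.MP_fdcff6_co.PrimesUpToSqrt
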